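import Pool.Agent.H88.CL.Basic

/-! Closing lemma on the torus: halving the time. -/

open Pool.Agent.H88.CL Set Function Topology Metric Filter

namespace Pool.Agent.H50.CL

theorem pf_HLV (h1 : T_OBC) (h2 : T_ITL) : T_HLV := by
  intro d
  obtain ⟨C, hC, hO⟩ := h1 d
  refine ⟨C, hC, ?_⟩
  intro F F' hL ε y q m hε hε1 hm hq hD
  have hC0 : 0 < C := by linarith
  rcases eq_or_ne q y with rfl | hne
  · left
    refine ⟨fun _ => 0, ⟨contDiff_const, fun _ _ _ => rfl, fun _ => ?_, fun x => ?_,
      fun x x' => ?_⟩, ?_⟩
    · rw [norm_zero]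
      exact hε.le
    · have h3 : fderiv ℝ (fun _ : E d => (0 : E d)) x = 0 := by
        simp
      rw [h3, norm_zero]
      exact hε.le
    · have h3 : ∀ x, fderiv ℝ (fun _ : E d => (0 : E d)) x = 0 := by
        intro x
        simp
      rw [h3, h3, sub_zero, norm_zero]
      positivity
    · have h3 : Gm F (fun _ : E d => (0 : E d)) = F := by
        funext x
        unfold Gm
        rw [add_zero]
      rw [h3]
      have h4 := neg_mem hq
      rwa [neg_sub] at h4
  · have hDpos : 0 < ‖q - y‖ := norm_pos_iff.2 (sub_ne_zero.2 hne)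
    set D := ‖q - y‖ with hDdef
    set R := Real.sqrt (C / ε * D) with hRdef
    have hpos : 0 < C / ε * D := by positivity
    have hR : 0 < R := Real.sqrt_pos.2 hpos
    have hR2 : R ^ 2 = C / ε * D := Real.sq_sqrt hpos.le
    have hR4 : R ≤ 1 / 4 := by
      by_contra h
      push Not at h
      nlinarith
    have hCD : C * D = ε * R ^ 2 := by
      rw [hR2]
      field_simp
    have hDR : D ≤ R := by nlinarith [mul_nonneg hR.le hR.le, mul_pos hR hR]
    by_cases hN : ∀ l, 1 ≤ l → l < m → ¬ Near R (F^[l] y) q
    · left
      obtain ⟨U, hU1, hU2⟩ := hO F F' hL y q m R hm hq hR hR4 hN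
      refine ⟨U, hU1.mono ?_ ?_ ?_, hU2⟩
      · nlinarith [mul_pos hR hR]
      · rw [div_le_iff₀ hR, hCD]
        nlinarith [mul_pos hε hR]
      · rw [div_le_iff₀ (by positivity), hCD]
    · right
      push Not at hN
      obtain ⟨l, hl1, hlm, z, hz, hzR⟩ := hN
      have key : F^[l] y - y - z = (F^[l] y - q - z) + (q - y) := by abel
      have hn := norm_add_le (F^[l] y - q - z) (q - y)
      by_cases h2l : 2 * l ≤ m
      · refine ⟨y, l, hl1, h2l, ?_, z, hz, ?_⟩
        · rw [sub_self, norm_zero]
          positivity
        · rw [key]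
          linarith
      · refine ⟨F^[l] y - z, m - l, by omega, by omega, ?_, F^[m - l] (F^[l] y - z) - q, ?_, ?_⟩
        · have h3 : F^[l] y - z - y = (F^[l] y - q - z) + (q - y) := by abel
          rw [h3]
          linarith
        · have h3 : F^[m - l] (F^[l] y - z) - F^[m - l] (F^[l] y) ∈ Lat d := by
            rw [h2 d F F' hL (m - l) _ _]
            have h4 : F^[l] y - z - F^[l] y = -z := by abel
            rw [h4]
            exact neg_mem hz
          have h4 : F^[m - l] (F^[l] y) = F^[m] y := by
            rw [← iterate_add_apply]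
            congr 2
            omega
          rw [h4] at h3
          have h5 := sub_mem h3 hq
          have h6 : F^[m - l] (F^[l] y - z) - F^[m] y - (q - F^[m] y) =
            F^[m - l] (F^[l] y - z) - q := by abel
          rwa [h6] at h5
        · have h3 : F^[m - l] (F^[l] y - z) - (F^[l] y - z) - (F^[m - l] (F^[l] y - z) - q) =
            -(F^[l] y - q - z) := by abel
          rw [h3, norm_neg]
          linarith

end Pool.Agent.H50.CL
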