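import Pool.Agent.H88.CL.Basic

/-! Closing lemma on the torus: one bump. -/

open Pool.Agent.H88.CL Set Function Topology Metric Filter

namespace Pool.Agent.H50.CL

theorem pf_OBC (h1 : T_OBP) (h2 : T_SUM) : T_OBC := by
  intro d
  obtain ⟨C1, hC1, hO⟩ := h1 d
  refine ⟨2 * C1, by linarith, ?_⟩
  intro F F' _ y q m R hm hq hR hR4 hN
  obtain ⟨u, hu1, hu2, hu3, hu4, hu5, hu6⟩ := hO (ContinuousLinearMap.id ℝ (E d)) 1 R q 0 (y - q)
    ContinuousLinearMap.norm_id_le hR
  have hR' : 0 < 1 / R := by positivity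
  have hw : 0 ≤ ‖y - q‖ := norm_nonneg _
  obtain ⟨U, hU1, hU2, hU3⟩ := h2 d 1 (fun _ => closedBall q (7 / 10 * R)) (fun _ => u)
    ‖y - q‖ (C1 * (1 / R) * ‖y - q‖) (C1 * (1 / R) ^ 2 * ‖y - q‖) hw (by positivity)
    (by positivity) (by
      intro l _
      refine ⟨isCompact_closedBall q _, hu1, hu2, hu3, hu4, fun z hz => ?_⟩
      have h3 := hu6 z hz
      rw [sub_zero] at h3
      rw [mem_closedBall, dist_eq_norm]
      exact h3) (by
      intro l hl l' hl' a ha a' ha' hL
      refine ⟨by omega, lat_eq hL ?_⟩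
      rw [mem_closedBall, dist_eq_norm] at ha ha'
      have h3 : a - a' = (a - q) - (a' - q) := by abel
      have h4 := norm_sub_le (a - q) (a' - q)
      rw [h3]
      linarith)
  have hUq : U q = y - q := by
    rw [hU2 0 (by norm_num) q (mem_closedBall_self (by positivity))]
    refine hu5 q ?_
    simp
    positivity
  have h0 : ∀ l, 1 ≤ l → l < m → U (F^[l] y) = 0 := by
    intro l hl hlm
    by_contra hne
    obtain ⟨_, -, z', hz', hL⟩ := hU3 _ hne
    refine hN l hl hlm ⟨_, hL, ?_⟩
    rw [mem_closedBall, dist_eq_norm] at hz'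
    have h3 : F^[l] y - q - (F^[l] y - z') = z' - q := by abel
    rw [h3]
    linarith
  refine ⟨U, hU1.mono (le_of_eq (norm_sub_rev _ _)) ?_ ?_, ?_⟩
  · rw [norm_sub_rev q y]
    have h3 : C1 * (1 / R) * ‖y - q‖ = (C1 * ‖y - q‖) / R := by ring
    rw [h3]
    exact div_le_div_of_nonneg_right (by nlinarith) hR.le
  · rw [norm_sub_rev q y]
    refine le_of_eq ?_
    field_simp
  · obtain ⟨k, rfl⟩ : ∃ k, m = k + 1 := ⟨m - 1, by omega⟩
    have hG : Gm F U q = F y := by
      unfold Gm
      rw [hUq]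
      congr 1
      abel
    have hit : ∀ l, l ≤ k → (Gm F U)^[l] (F y) = F^[l + 1] y := by
      intro l
      induction l with
      | zero => intro _; rfl
      | succ l ih =>
        intro hl
        rw [iterate_succ_apply', ih (by omega), iterate_succ_apply' F (l + 1) y]
        change F (F^[l + 1] y + U (F^[l + 1] y)) = _
        rw [h0 (l + 1) (by omega) (by omega), add_zero]
    rw [iterate_succ_apply, hG, hit k le_rfl]
    have h3 := neg_mem hq
    rwa [neg_sub] at h3

end Pool.Agent.H50.CL
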